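import Pool.Agent.Lib_helper72.KX.V3

/-!
# The curve with `b = 270`, `c = -30`: the units, their logarithmic derivatives
-/

set_option autoImplicit false
set_option linter.unusedSectionVars false
set_option linter.unusedSimpArgs false
set_option linter.unusedVariables false

namespace Pool.Agent.KXd

open Polynomial WeierstrassCurve.Affine WithZero TN KX
open Pool.Agent.K7 (LC LC_x LC_y LC_xc LC_yx LC_one LC_c LC_prod wr2)

section K

variable (k : Type*) [Field k]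

/-- the curve -/
abbrev W8 : WeierstrassCurve.Affine k := Wt (270) (-30)

/-- the units -/
noncomputable def uK : Fin 9 → K (W8 k) :=
  ![xK, xK - cK (270), xK - cK (-30), xK - cK (90), xK - cK (-54), yK,
    yK - cK (-30) * xK, yK - cK (-10) * xK, yK - cK (-18) * xK]

lemma LC_uK (j : Fin 9) : LC (uK k j) (- oU j 0) 1 := by
  fin_cases j
  · exact LC_x
  · exact LC_xc _
  · exact LC_xc _
  · exact LC_xc _
  · exact LC_xc _
  · exact LC_y
  · exact LC_yx _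
  · exact LC_yx _
  · exact LC_yx _

lemma uK_ne (j : Fin 9) : uK k j ≠ 0 := (LC_uK k j).ne

/-- the function vanishing at the nine points -/
noncomputable def qK : K (W8 k) :=
  xK * (xK - cK (270)) * (xK - cK (-30)) * (xK - cK (90)) * (xK - cK (-54))

/-- the coefficients of `q u'/u`, times `1` -/
def rrz : Fin 9 → Fin 11 → ℤ :=
  ![![-10628820000, 826686000, 78732000, 46364400, 2916000, -59400, -8640, -8826, -552, 31, 2],
    ![0, 39366000, 0, -2916000, -291600, -182520, -11880, -456, -12, 31, 2],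
    ![0, -354294000, 0, 39366000, 2624400, 233280, 9720, -9756, -612, 31, 2],
    ![0, 118098000, 0, -7873200, -874800, -602640, -42120, -6036, -372, 31, 2],
    ![0, -196830000, 0, 18954000, 1458000, 507600, 27000, -10500, -660, 31, 2],
    ![-21257640000, 472392000, 78732000, 44614800, 2770200, -167400, -14580, -9552, -558, 62, 3],
    ![-10628820000, 472392000, 39366000, 46364400, 2624400, 28080, -5400, -9402, -588, 32, 3],
    ![-10628820000, -236196000, 39366000, 38491200, 2332800, -176040, -20520, -13902, -768, 52, 3],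
    ![-10628820000, 236196000, 39366000, 33242400, 1749600, 37800, -11880, -12486, -792, 44, 3]]

/-- the coefficients of `q u'/u` -/
def rr (j : Fin 9) (m : Fin 11) : k := (rrz j m : k) / 1

lemma rr_top [CharZero k] (j : Fin 9) : rr k j 10 = ((- oU j 0 : ℤ) : k) := by
  have h : ∀ j : Fin 9, rrz j 10 = 1 * (- oU j 0) := by decide
  unfold rr
  rw [h]
  first | (push_cast; field_simp; done) | (push_cast; simp; done) | simp

lemma hdx : (dx : K (W8 k)) = 2 * yK + (1 - cK (-30)) * xK - cK (270) := by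
  show 2 * yK + cK (1 - -30) * xK + cK (- (270)) = _
  simp only [map_sub, map_one, map_neg]; ring

lemma hdy : (dy : K (W8 k)) = 3 * xK ^ 2 - 2 * cK (270) * xK - (1 - cK (-30)) * yK := by
  show 3 * xK ^ 2 + 2 * cK (- (270)) * xK + cK 0 - cK (1 - -30) * yK = _
  simp only [map_sub, map_one, map_neg, map_zero]; ring

lemma dv_cmul (a : k) (z : K (W8 k)) : dv (cK a * z) = cK a * dv z := by
  rw [dv_mul, dv_c, mul_zero, add_zero]

lemma dv_sub' (z w : K (W8 k)) : dv (z - w) = dv z - dv w := by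
  have h := dv_add (z - w) w
  rw [sub_add_cancel] at h
  linear_combination -h

/-- the derivatives of the units -/
lemma dv_uK (j : Fin 9) : dv (uK k j) = (![dx, dx, dx, dx, dx, dy, dy - cK (-30) * dx,
    dy - cK (-10) * dx, dy - cK (-18) * dx] : Fin 9 → K (W8 k)) j := by
  fin_cases j
  · exact dv_x
  · exact (dv_sub_c _ _).trans dv_x
  · exact (dv_sub_c _ _).trans dv_x
  · exact (dv_sub_c _ _).trans dv_x
  · exact (dv_sub_c _ _).trans dv_x
  · exact dv_y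
  · show dv (yK - cK (-30) * xK) = dy - cK (-30) * dx
    rw [dv_sub', dv_cmul, dv_x, dv_y]
  · show dv (yK - cK (-10) * xK) = dy - cK (-10) * dx
    rw [dv_sub', dv_cmul, dv_x, dv_y]
  · show dv (yK - cK (-18) * xK) = dy - cK (-18) * dx
    rw [dv_sub', dv_cmul, dv_x, dv_y]

lemma eqW8 : (yK : K (W8 k)) ^ 2 + (1 - cK (-30)) * xK * yK - cK (270) * yK =
    xK ^ 3 - cK (270) * xK ^ 2 := eqW

lemma NV_eq (r : Fin 11 → k) : (NV r : K (W8 k)) = cK (r 0) + cK (r 1) * xK + cK (r 2) * yK +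
    cK (r 3) * xK ^ 2 + cK (r 4) * (xK * yK) + cK (r 5) * xK ^ 3 + cK (r 6) * (xK ^ 2 * yK) +
    cK (r 7) * xK ^ 4 + cK (r 8) * (xK ^ 3 * yK) + cK (r 9) * xK ^ 5 +
    cK (r 10) * (xK ^ 4 * yK) := by
  unfold NV
  rw [Fin.sum_univ_castSucc, sum10]
  show cK (r 0) * 1 + cK (r 1) * xK + cK (r 2) * yK + cK (r 3) * xK ^ 2 +
    cK (r 4) * (xK * yK) + cK (r 5) * xK ^ 3 + cK (r 6) * (xK ^ 2 * yK) + cK (r 7) * xK ^ 4 +
    cK (r 8) * (xK ^ 3 * yK) + cK (r 9) * xK ^ 5 + cK (r 10) * (xK ^ 4 * yK) = _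
  ring


lemma ld_uK [CharZero k] (j : Fin 9) : qK k * ld (uK k j) = NV (rr k j) := by
  have : CharZero (K (W8 k)) :=
    charZero_of_injective_algebraMap (algebraMap k (K (W8 k))).injective
  have hu := uK_ne k j
  have he := eqW8 k
  have h1 := hdx k
  have h2 := hdy k
  have n0 : (cK (270) : K (W8 k)) = 270 := by simp [map_div₀, map_ofNat, map_neg]
  have n1 : (cK (-30) : K (W8 k)) = -30 := by simp [map_div₀, map_ofNat, map_neg]
  have n2 : (cK (90) : K (W8 k)) = 90 := by simp [map_div₀, map_ofNat, map_neg]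
  have n3 : (cK (-54) : K (W8 k)) = -54 := by simp [map_div₀, map_ofNat, map_neg]
  have n4 : (cK (-10) : K (W8 k)) = -10 := by simp [map_div₀, map_ofNat, map_neg]
  have n5 : (cK (-18) : K (W8 k)) = -18 := by simp [map_div₀, map_ofNat, map_neg]
  have hr : ∀ j m, (cK (rr k j m) : K (W8 k)) = ((rrz j m : ℤ) : K (W8 k)) / 1 := by
    intro j m
    unfold rr
    first | rw [map_div₀, map_intCast, map_ofNat] | rw [map_div₀, map_intCast, map_one]
  rw [n0, n1] at he h1 h2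
  unfold ld
  rw [← mul_div_assoc, div_eq_iff hu, dv_uK, NV_eq]
  simp only [hr]
  unfold qK
  rw [n0, n1, n2, n3]
  fin_cases j
  · show xK * (xK - (270)) * (xK - (-30)) * (xK - (90)) * (xK - (-54)) * dx =
      (((-10628820000 : ℤ) : K (W8 k)) / 1 + ((826686000 : ℤ) : K (W8 k)) / 1 * xK +
      ((78732000 : ℤ) : K (W8 k)) / 1 * yK + ((46364400 : ℤ) : K (W8 k)) / 1 * xK ^ 2 +
      ((2916000 : ℤ) : K (W8 k)) / 1 * (xK * yK) + ((-59400 : ℤ) : K (W8 k)) / 1 * xK ^ 3 +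
      ((-8640 : ℤ) : K (W8 k)) / 1 * (xK ^ 2 * yK) + ((-8826 : ℤ) : K (W8 k)) / 1 * xK ^ 4 +
      ((-552 : ℤ) : K (W8 k)) / 1 * (xK ^ 3 * yK) + ((31 : ℤ) : K (W8 k)) / 1 * xK ^ 5 +
      ((2 : ℤ) : K (W8 k)) / 1 * (xK ^ 4 * yK)) * (xK)
    push_cast
    rw [h1]
    ring
  · show xK * (xK - (270)) * (xK - (-30)) * (xK - (90)) * (xK - (-54)) * dx =
      (((0 : ℤ) : K (W8 k)) / 1 + ((39366000 : ℤ) : K (W8 k)) / 1 * xK +
      ((0 : ℤ) : K (W8 k)) / 1 * yK + ((-2916000 : ℤ) : K (W8 k)) / 1 * xK ^ 2 +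
      ((-291600 : ℤ) : K (W8 k)) / 1 * (xK * yK) + ((-182520 : ℤ) : K (W8 k)) / 1 * xK ^ 3 +
      ((-11880 : ℤ) : K (W8 k)) / 1 * (xK ^ 2 * yK) + ((-456 : ℤ) : K (W8 k)) / 1 * xK ^ 4 +
      ((-12 : ℤ) : K (W8 k)) / 1 * (xK ^ 3 * yK) + ((31 : ℤ) : K (W8 k)) / 1 * xK ^ 5 +
      ((2 : ℤ) : K (W8 k)) / 1 * (xK ^ 4 * yK)) * (xK - cK (270))
    push_cast
    rw [h1, n0]
    ring
  · show xK * (xK - (270)) * (xK - (-30)) * (xK - (90)) * (xK - (-54)) * dx =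
      (((0 : ℤ) : K (W8 k)) / 1 + ((-354294000 : ℤ) : K (W8 k)) / 1 * xK +
      ((0 : ℤ) : K (W8 k)) / 1 * yK + ((39366000 : ℤ) : K (W8 k)) / 1 * xK ^ 2 +
      ((2624400 : ℤ) : K (W8 k)) / 1 * (xK * yK) + ((233280 : ℤ) : K (W8 k)) / 1 * xK ^ 3 +
      ((9720 : ℤ) : K (W8 k)) / 1 * (xK ^ 2 * yK) + ((-9756 : ℤ) : K (W8 k)) / 1 * xK ^ 4 +
      ((-612 : ℤ) : K (W8 k)) / 1 * (xK ^ 3 * yK) + ((31 : ℤ) : K (W8 k)) / 1 * xK ^ 5 +
      ((2 : ℤ) : K (W8 k)) / 1 * (xK ^ 4 * yK)) * (xK - cK (-30))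
    push_cast
    rw [h1, n1]
    ring
  · show xK * (xK - (270)) * (xK - (-30)) * (xK - (90)) * (xK - (-54)) * dx =
      (((0 : ℤ) : K (W8 k)) / 1 + ((118098000 : ℤ) : K (W8 k)) / 1 * xK +
      ((0 : ℤ) : K (W8 k)) / 1 * yK + ((-7873200 : ℤ) : K (W8 k)) / 1 * xK ^ 2 +
      ((-874800 : ℤ) : K (W8 k)) / 1 * (xK * yK) + ((-602640 : ℤ) : K (W8 k)) / 1 * xK ^ 3 +
      ((-42120 : ℤ) : K (W8 k)) / 1 * (xK ^ 2 * yK) + ((-6036 : ℤ) : K (W8 k)) / 1 * xK ^ 4 +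
      ((-372 : ℤ) : K (W8 k)) / 1 * (xK ^ 3 * yK) + ((31 : ℤ) : K (W8 k)) / 1 * xK ^ 5 +
      ((2 : ℤ) : K (W8 k)) / 1 * (xK ^ 4 * yK)) * (xK - cK (90))
    push_cast
    rw [h1, n2]
    ring
  · show xK * (xK - (270)) * (xK - (-30)) * (xK - (90)) * (xK - (-54)) * dx =
      (((0 : ℤ) : K (W8 k)) / 1 + ((-196830000 : ℤ) : K (W8 k)) / 1 * xK +
      ((0 : ℤ) : K (W8 k)) / 1 * yK + ((18954000 : ℤ) : K (W8 k)) / 1 * xK ^ 2 +
      ((1458000 : ℤ) : K (W8 k)) / 1 * (xK * yK) + ((507600 : ℤ) : K (W8 k)) / 1 * xK ^ 3 +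
      ((27000 : ℤ) : K (W8 k)) / 1 * (xK ^ 2 * yK) + ((-10500 : ℤ) : K (W8 k)) / 1 * xK ^ 4 +
      ((-660 : ℤ) : K (W8 k)) / 1 * (xK ^ 3 * yK) + ((31 : ℤ) : K (W8 k)) / 1 * xK ^ 5 +
      ((2 : ℤ) : K (W8 k)) / 1 * (xK ^ 4 * yK)) * (xK - cK (-54))
    push_cast
    rw [h1, n3]
    ring
  · show xK * (xK - (270)) * (xK - (-30)) * (xK - (90)) * (xK - (-54)) * dy =
      (((-21257640000 : ℤ) : K (W8 k)) / 1 + ((472392000 : ℤ) : K (W8 k)) / 1 * xK +
      ((78732000 : ℤ) : K (W8 k)) / 1 * yK + ((44614800 : ℤ) : K (W8 k)) / 1 * xK ^ 2 +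
      ((2770200 : ℤ) : K (W8 k)) / 1 * (xK * yK) + ((-167400 : ℤ) : K (W8 k)) / 1 * xK ^ 3 +
      ((-14580 : ℤ) : K (W8 k)) / 1 * (xK ^ 2 * yK) + ((-9552 : ℤ) : K (W8 k)) / 1 * xK ^ 4 +
      ((-558 : ℤ) : K (W8 k)) / 1 * (xK ^ 3 * yK) + ((62 : ℤ) : K (W8 k)) / 1 * xK ^ 5 +
      ((3 : ℤ) : K (W8 k)) / 1 * (xK ^ 4 * yK)) * (yK)
    push_cast
    rw [h2]
    linear_combination ((-78732000) * xK ^ 0 + (-2770200) * xK ^ 1 + (14580) * xK ^ 2 + (558) * xK ^ 3 + (-3) * xK ^ 4) * he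
  · show xK * (xK - (270)) * (xK - (-30)) * (xK - (90)) * (xK - (-54)) * (dy - (-30) * dx) =
      (((-10628820000 : ℤ) : K (W8 k)) / 1 + ((472392000 : ℤ) : K (W8 k)) / 1 * xK +
      ((39366000 : ℤ) : K (W8 k)) / 1 * yK + ((46364400 : ℤ) : K (W8 k)) / 1 * xK ^ 2 +
      ((2624400 : ℤ) : K (W8 k)) / 1 * (xK * yK) + ((28080 : ℤ) : K (W8 k)) / 1 * xK ^ 3 +
      ((-5400 : ℤ) : K (W8 k)) / 1 * (xK ^ 2 * yK) + ((-9402 : ℤ) : K (W8 k)) / 1 * xK ^ 4 +
      ((-588 : ℤ) : K (W8 k)) / 1 * (xK ^ 3 * yK) + ((32 : ℤ) : K (W8 k)) / 1 * xK ^ 5 +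
      ((3 : ℤ) : K (W8 k)) / 1 * (xK ^ 4 * yK)) * (yK - cK (-30) * xK)
    push_cast
    rw [h1, h2, n1]
    linear_combination ((-39366000) * xK ^ 0 + (-2624400) * xK ^ 1 + (5400) * xK ^ 2 + (588) * xK ^ 3 + (-3) * xK ^ 4) * he
  · show xK * (xK - (270)) * (xK - (-30)) * (xK - (90)) * (xK - (-54)) * (dy - cK (-10) * dx) =
      (((-10628820000 : ℤ) : K (W8 k)) / 1 + ((-236196000 : ℤ) : K (W8 k)) / 1 * xK +
      ((39366000 : ℤ) : K (W8 k)) / 1 * yK + ((38491200 : ℤ) : K (W8 k)) / 1 * xK ^ 2 +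
      ((2332800 : ℤ) : K (W8 k)) / 1 * (xK * yK) + ((-176040 : ℤ) : K (W8 k)) / 1 * xK ^ 3 +
      ((-20520 : ℤ) : K (W8 k)) / 1 * (xK ^ 2 * yK) + ((-13902 : ℤ) : K (W8 k)) / 1 * xK ^ 4 +
      ((-768 : ℤ) : K (W8 k)) / 1 * (xK ^ 3 * yK) + ((52 : ℤ) : K (W8 k)) / 1 * xK ^ 5 +
      ((3 : ℤ) : K (W8 k)) / 1 * (xK ^ 4 * yK)) * (yK - cK (-10) * xK)
    push_cast
    rw [h1, h2, n4]
    linear_combination ((-39366000) * xK ^ 0 + (-2332800) * xK ^ 1 + (20520) * xK ^ 2 + (768) * xK ^ 3 + (-3) * xK ^ 4) * he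
  · show xK * (xK - (270)) * (xK - (-30)) * (xK - (90)) * (xK - (-54)) * (dy - cK (-18) * dx) =
      (((-10628820000 : ℤ) : K (W8 k)) / 1 + ((236196000 : ℤ) : K (W8 k)) / 1 * xK +
      ((39366000 : ℤ) : K (W8 k)) / 1 * yK + ((33242400 : ℤ) : K (W8 k)) / 1 * xK ^ 2 +
      ((1749600 : ℤ) : K (W8 k)) / 1 * (xK * yK) + ((37800 : ℤ) : K (W8 k)) / 1 * xK ^ 3 +
      ((-11880 : ℤ) : K (W8 k)) / 1 * (xK ^ 2 * yK) + ((-12486 : ℤ) : K (W8 k)) / 1 * xK ^ 4 +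
      ((-792 : ℤ) : K (W8 k)) / 1 * (xK ^ 3 * yK) + ((44 : ℤ) : K (W8 k)) / 1 * xK ^ 5 +
      ((3 : ℤ) : K (W8 k)) / 1 * (xK ^ 4 * yK)) * (yK - cK (-18) * xK)
    push_cast
    rw [h1, h2, n5]
    linear_combination ((-39366000) * xK ^ 0 + (-1749600) * xK ^ 1 + (11880) * xK ^ 2 + (792) * xK ^ 3 + (-3) * xK ^ 4) * he


/-! ### monomials -/

/-- a monomial -/
noncomputable def mo (n : Fin 9 → ℤ) : K (W8 k) := ∏ j, uK k j ^ n j

/-- the coefficients of `q f'/f` for a monomial `f` -/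
noncomputable def RR (n : Fin 9 → ℤ) : Fin 11 → k := ∑ j, ((n j : ℤ) : k) • rr k j

lemma LC_mo (n : Fin 9 → ℤ) : LC (mo k n) (- Dn n 0) 1 := by
  have h := LC_prod Finset.univ (z := fun j => uK k j ^ n j) (n := fun j => n j * (- oU j 0))
    (a := fun j => (1 : k) ^ n j) (fun j _ => (LC_uK k j).zpow (n j))
  simp only [one_zpow, Finset.prod_const_one] at h
  have e : - Dn n 0 = ∑ j, n j * (- oU j 0) := by
    unfold Dn; rw [← Finset.sum_neg_distrib]; exact Finset.sum_congr rfl fun j _ => by ring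
  rw [e]; exact h

lemma mo_ne (n : Fin 9 → ℤ) : mo k n ≠ 0 := (LC_mo k n).ne

lemma ld_prod {ι : Type*} (s : Finset ι) (z : ι → K (W8 k)) (hz : ∀ i ∈ s, z i ≠ 0) :
    ld (∏ i ∈ s, z i) = ∑ i ∈ s, ld (z i) := by
  classical
  induction s using Finset.induction_on with
  | empty => simpa using ld_one
  | insert i s hi ih =>
    have h1 := hz i (Finset.mem_insert_self _ _)
    have h2 : ∀ j ∈ s, z j ≠ 0 := fun j hj => hz j (Finset.mem_insert_of_mem hj)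
    rw [Finset.prod_insert hi, Finset.sum_insert hi, ld_mul h1 (Finset.prod_ne_zero_iff.mpr h2),
      ih h2]

variable [CharZero k]

lemma ld_mo (n : Fin 9 → ℤ) : qK k * ld (mo k n) = NV (RR k n) := by
  unfold mo RR
  rw [ld_prod k _ _ (fun j _ => zpow_ne_zero _ (uK_ne k j)), NV_sum, Finset.mul_sum]
  refine Finset.sum_congr rfl fun j _ => ?_
  rw [ld_zpow (uK_ne k j), ← ld_uK]
  have : (cK ((n j : ℤ) : k) : K (W8 k)) = ((n j : ℤ) : K (W8 k)) := map_intCast _ _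
  rw [this]; ring

lemma RR_top (n : Fin 9 → ℤ) : RR k n 10 = ((- Dn n 0 : ℤ) : k) := by
  unfold RR Dn
  rw [Finset.sum_apply, ← Finset.sum_neg_distrib]
  push_cast
  refine Finset.sum_congr rfl fun j _ => ?_
  rw [Pi.smul_apply, smul_eq_mul, rr_top]; push_cast; ring

variable {k}

/-- **the orders and values at the origin** -/
theorem bound_K {c₀ c₁ : k} (h0 : c₀ ≠ 0) (h1 : c₁ ≠ 0) {n n' : Fin 9 → ℤ}
    (h : cK c₀ * mo k n + cK c₁ * mo k n' = 1) :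
    (Dn n 0 = 0 ∧ Dn n' 0 = 0) ∨
    (1 ≤ Dn n 0 ∧ Dn n' 0 = 0 ∧ c₁ = 1 ∧
      ∃ M : Fin 11, ordm M = 11 - Dn n 0 ∧ ∀ m, M < m → RR k n' m = 0) ∨
    (Dn n 0 = 0 ∧ 1 ≤ Dn n' 0 ∧ c₀ = 1) ∨
    (Dn n 0 = Dn n' 0 ∧ Dn n 0 ≤ -1 ∧ c₀ = - c₁) := by
  have hc0 : (cK c₀ : K (W8 k)) ≠ 0 := ne_of_v (v_c h0)
  have hc1 : (cK c₁ : K (W8 k)) ≠ 0 := ne_of_v (v_c h1)
  have Lf : LC (cK c₀ * mo k n) (- Dn n 0) c₀ := by
    have := (LC_c (W := W8 k) h0).mul (LC_mo k n); rwa [zero_add, mul_one] at this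
  have Lg : LC (cK c₁ * mo k n') (- Dn n' 0) c₁ := by
    have := (LC_c (W := W8 k) h1).mul (LC_mo k n'); rwa [zero_add, mul_one] at this
  have lf : NV (RR k n) = qK k * ld (cK c₀ * mo k n) := by
    rw [ld_mul hc0 (mo_ne _ _), ld_c, zero_add, ld_mo]
  have lg : NV (RR k n') = qK k * ld (cK c₁ * mo k n') := by
    rw [ld_mul hc1 (mo_ne _ _), ld_c, zero_add, ld_mo]
  have top : ∀ {m : Fin 9 → ℤ}, RR k m 10 ≠ 0 ↔ Dn m 0 ≠ 0 := by
    intro m; rw [RR_top]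
    constructor
    · intro h h'; apply h; rw [h']; simp
    · intro h h'; apply h; have := Int.cast_eq_zero.mp h'; omega
  rcases wr2 h lf lg Lf.v_eq Lg.v_eq (NV_key _) (NV_key _) (by rw [← NV_sub]; exact NV_key _) with
    ⟨h2, h3⟩ | ⟨i, j, l, hi, hj, hl, e1, e2, h2⟩
  · left
    constructor
    · by_contra hne
      exact top.mpr hne (by rw [NV_eq_zero h2]; rfl)
    · by_contra hne
      exact top.mpr hne (by rw [NV_eq_zero h3]; rfl)
  · have val1 : Dn n 0 = 0 → Dn n' 0 ≥ 1 → c₀ = 1 := by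
      intro a1 a2
      rw [a1, neg_zero] at Lf
      refine Lf.unique LC_one ?_
      have : cK c₀ * mo k n - 1 = - (cK c₁ * mo k n') := by rw [← h]; ring
      rw [this, Valuation.map_neg, Lg.v_eq, ← exp_zero, exp_lt_exp]; omega
    have val2 : Dn n' 0 = 0 → Dn n 0 ≥ 1 → c₁ = 1 := by
      intro a1 a2
      rw [a1, neg_zero] at Lg
      refine Lg.unique LC_one ?_
      have : cK c₁ * mo k n' - 1 = - (cK c₀ * mo k n) := by rw [← h]; ring
      rw [this, Valuation.map_neg, Lf.v_eq, ← exp_zero, exp_lt_exp]; omega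
    have val3 : Dn n 0 = Dn n' 0 → Dn n 0 ≤ -1 → c₀ = - c₁ := by
      intro a1 a2
      have L1 := Lf.div Lg
      rw [a1, sub_self] at L1
      have L2 : LC (-1 : K (W8 k)) 0 (-1) := by
        have := LC_c (W := W8 k) (a := -1) (neg_ne_zero.mpr one_ne_zero)
        rwa [map_neg, map_one] at this
      have h3 : c₀ / c₁ = -1 := by
        refine L1.unique L2 ?_
        have hg := Lg.ne
        have : cK c₀ * mo k n / (cK c₁ * mo k n') - (-1) = 1 / (cK c₁ * mo k n') := by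
          rw [sub_neg_eq_add, div_add_one hg, h]
        rw [this, map_div₀, map_one, Lg.v_eq, one_div, ← exp_neg, ← exp_zero, exp_lt_exp]; omega
      rw [div_eq_iff h1] at h3; rw [h3]; ring
    rcases h2 with h2 | h2 | h2 | h2
    · right; right; right
      exact ⟨by omega, by omega, val3 (by omega) (by omega)⟩
    · left; omega
    · right; left
      refine ⟨by omega, by omega, val2 (by omega) (by omega), ?_⟩
      have t0 : RR k n' 10 = 0 := by rw [RR_top, show Dn n' 0 = 0 by omega]; simp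
      have t1 : RR k n 10 ≠ 0 := top.mpr (by omega)
      have l9 : l = 11 := by
        rw [← NV_sub] at hl
        rcases v_NV' (W := W8 k) (RR k n - RR k n') with h3 | ⟨M, hM, hM', hv⟩
        · rw [h3, NV_zero, map_zero] at hl; exact absurd hl.symm exp_ne_zero
        · rw [hl, exp_inj] at hv
          have : M = 10 := by
            by_contra hne
            have h4 := hM' 10 (lt_of_le_of_ne (Fin.le_last M) hne)
            rw [Pi.sub_apply, t0, sub_zero] at h4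
            exact t1 h4
          rw [hv, this]; rfl
      rcases v_NV' (W := W8 k) (RR k n') with h3 | ⟨M, hM, hM', hv⟩
      · rw [h3, NV_zero, map_zero] at hj; exact absurd hj.symm exp_ne_zero
      · rw [hj, exp_inj] at hv
        exact ⟨M, by omega, hM'⟩
    · right; right; left
      exact ⟨by omega, by omega, val1 (by omega) (by omega)⟩

end K

end Pool.Agent.KXd
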