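import Pool.Agent.Lib_helper72.KX.Nf
import Pool.Agent.Lib_helper72.KXd.ClD
import Pool.Agent.Lib_helper72.KXd.C

/-!
# The curve with `b = 270`, `c = -30`: the classes under translation
-/

set_option autoImplicit false

namespace Pool.Agent.KXd

open KX KC72

/-- the packed generators at the next point -/
noncomputable def ptd : PT := ⟨512, 324518553658426726783156020576256, 6, 12, [
  1,
  512,
  262144,
  134217728,
  68719476736,
  35184372088832,
  18014398509481984,
  9223372036854775808,
  4722366482869645213696,
  2417851639229258349412352,
  1237940039285380274899124224,
  633825300114114700748351602688], [
  637541538083610106015770476542,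
  637541538083628120414279958014,
  635065658014280696716964134910,
  636303602775914545462865035262,
  3716247414228335753617735678,
  1275083076167238191245678345725,
  1272607196097890802732734610941,
  1271369260780971870142974394365,
  640019845467776398346837557245,
  2417851639229258349412352,
  1237940039285380274899124224,
  633825300114114700748351602688],
  [false, true, false, true, false, false, false, false, false, false, false, false]⟩

lemma ptO : ptd.Ok T8 where
  PB := by decide +kernel
  R := by decide +kernel
  S := by decide +kernel
  bT := by decide +kernel
  lT := by decide +kernel
  bN := by decide +kernel
  b0 := by decide +kernel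

lemma nx_ok : ∀ c < cls.length, nxC T8 cls nxt c = true := nx_of ptO (by decide +kernel)

lemma rk_ok : ∀ c < cls.length, rkC bp cls nxt rk c = true := rk_of cls_len (by decide +kernel)

end Pool.Agent.KXd
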